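import Pool.Agent.H96S.CI.G3

/-!
# Subfields from block systems
-/

set_option autoImplicit false
set_option linter.unusedSectionVars false
set_option synthInstance.maxHeartbeats 400000

open NumberField IntermediateField Pool.Agent.TH444.ML Pool.Agent.H96S.CI

namespace Pool.Agent.H96S.CJ

variable (K : Type) [Field K] [NumberField K]

/-- the homomorphism to `G` -/
theorem theta {n : ℕ} {G : Subgroup (Equiv.Perm (Fin n))}
    {E : IntermediateField K (AlgebraicClosure K)} [FiniteDimensional K E]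
    (hE : ∃ e : (E →ₐ[K] AlgebraicClosure K) ≃ Fin n, ∀ π : Equiv.Perm (Fin n),
      π ∈ G ↔ ∃ σ : AlgebraicClosure K ≃ₐ[K] AlgebraicClosure K,
        ∀ φ : E →ₐ[K] AlgebraicClosure K, e (σ.toAlgHom.comp φ) = π (e φ)) :
    ∃ (θ : (AlgebraicClosure K ≃ₐ[K] AlgebraicClosure K) →* G) (i₁ : Fin n),
      Function.Surjective θ ∧ (∀ σ, (θ σ).1 i₁ = i₁ ↔ σ ∈ E.fixingSubgroup) ∧
      θ.ker = (normalClosure K E (AlgebraicClosure K)).fixingSubgroup := by
  obtain ⟨e, he⟩ := hE
  let θ₀ : (AlgebraicClosure K ≃ₐ[K] AlgebraicClosure K) →* Equiv.Perm (Fin n) :=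
    (e.permCongrHom.toMonoidHom).comp (Pool.Agent.TH365.J3099.act E)
  have hθ : ∀ σ (φ : E →ₐ[K] AlgebraicClosure K), θ₀ σ (e φ) = e (σ.toAlgHom.comp φ) := by
    intro σ φ
    show e (Pool.Agent.TH365.J3099.act E σ (e.symm (e φ))) = _
    rw [Equiv.symm_apply_apply]
    rfl
  have hmem : ∀ σ, θ₀ σ ∈ G := fun σ => (he _).2 ⟨σ, fun φ => (hθ σ φ).symm⟩
  refine ⟨θ₀.codRestrict G hmem, e E.val, ?_, ?_, ?_⟩
  · rintro ⟨π, hπ⟩
    obtain ⟨σ, hσ⟩ := (he π).1 hπ
    refine ⟨σ, Subtype.ext ?_⟩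
    show θ₀ σ = π
    ext1 j
    obtain ⟨φ, rfl⟩ := e.surjective j
    rw [hθ, hσ]
  · intro σ
    show θ₀ σ (e E.val) = e E.val ↔ _
    rw [hθ, e.injective.eq_iff, IntermediateField.mem_fixingSubgroup_iff]
    constructor
    · intro h x hx
      exact congrArg (fun f : E →ₐ[K] AlgebraicClosure K => f ⟨x, hx⟩) h
    · intro h
      ext x
      exact h x x.2
  · rw [← Pool.Agent.TH365.J3099.ker_act]
    ext σ
    rw [MonoidHom.mem_ker, MonoidHom.mem_ker]
    have h1 : (θ₀.codRestrict G hmem) σ = 1 ↔ θ₀ σ = 1 :=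
      ⟨fun h => congrArg Subtype.val h, fun h => Subtype.ext h⟩
    rw [h1]
    show e.permCongrHom (Pool.Agent.TH365.J3099.act E σ) = 1 ↔ _
    rw [MulEquiv.map_eq_one_iff]

/-- the subfield belonging to a block system -/
theorem sub_field {n d : ℕ} {G : Subgroup (Equiv.Perm (Fin n))}
    {E : IntermediateField K (AlgebraicClosure K)} [FiniteDimensional K E]
    (hE : ∃ e : (E →ₐ[K] AlgebraicClosure K) ≃ Fin n, ∀ π : Equiv.Perm (Fin n),
      π ∈ G ↔ ∃ σ : AlgebraicClosure K ≃ₐ[K] AlgebraicClosure K,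
        ∀ φ : E →ₐ[K] AlgebraicClosure K, e (σ.toAlgHom.comp φ) = π (e φ))
    (a : G →* Equiv.Perm (Fin d)) (q : Fin n → Fin d)
    (hq : ∀ (g : G) x, q (g.1 x) = a g (q x)) (htr : ∀ i j : Fin d, ∃ g : G, a g i = j) :
    ∃ F : IntermediateField K (AlgebraicClosure K), F ≤ E ∧ Module.finrank K F = d ∧
      (∃ e : (F →ₐ[K] AlgebraicClosure K) ≃ Fin d, ∀ π : Equiv.Perm (Fin d),
      π ∈ a.range ↔ ∃ σ : AlgebraicClosure K ≃ₐ[K] AlgebraicClosure K,
        ∀ φ : F →ₐ[K] AlgebraicClosure K, e (σ.toAlgHom.comp φ) = π (e φ)) ∧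
      (Function.Injective a → E ≤ normalClosure K F (AlgebraicClosure K) ∧
        Module.finrank K (normalClosure K F (AlgebraicClosure K)) ≤ Nat.card G) := by
  obtain ⟨θ, i₁, hθ, hst, hker⟩ := theta K hE
  let ψ : (AlgebraicClosure K ≃ₐ[K] AlgebraicClosure K) →* Equiv.Perm (Fin d) := a.comp θ
  have hNf : FiniteDimensional K (normalClosure K E (AlgebraicClosure K)) :=
    normalClosure.is_finiteDimensional K _ _
  have hk : (normalClosure K E (AlgebraicClosure K)).fixingSubgroup ≤ ψ.ker := by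
    intro σ hσ
    rw [← hker, MonoidHom.mem_ker] at hσ
    rw [MonoidHom.mem_ker]
    show a (θ σ) = 1
    rw [hσ, map_one]
  have htr' : ∀ j, ∃ σ, ψ σ (q i₁) = j := by
    intro j
    obtain ⟨g, hg⟩ := htr (q i₁) j
    obtain ⟨σ, rfl⟩ := hθ g
    exact ⟨σ, hg⟩
  have hrange : ψ.range = a.range := by
    show (a.comp θ).range = a.range
    rw [MonoidHom.range_comp, MonoidHom.range_eq_top.2 hθ, ← MonoidHom.range_eq_map]
  have hstab : E.fixingSubgroup ≤ St ψ (q i₁) := by
    intro σ hσ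
    rw [mem_St]
    show a (θ σ) (q i₁) = q i₁
    rw [← hq, (hst σ).2 hσ]
  have hFE : FE ψ (q i₁) ≤ E := by
    have h2 : FE ψ (q i₁) ≤ fixedField E.fixingSubgroup := by
      intro x hx
      unfold FE at hx
      rw [mem_fixedField_iff] at hx ⊢
      exact fun f hf => hx f (hstab hf)
    rwa [InfiniteGalois.fixedField_fixingSubgroup] at h2
  have hgp := gp_FE hk htr'
  rw [hrange] at hgp
  refine ⟨FE ψ (q i₁), hFE, finrank_FE hk htr', hgp, fun ha => ?_⟩
  set M := normalClosure K (FE ψ (q i₁)) (AlgebraicClosure K) with hM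
  have hMn : Normal K M := normalClosure.normal K _ _
  have hFM : FE ψ (q i₁) ≤ M := le_normalClosure _
  have hfix : ∀ σ ∈ M.fixingSubgroup, θ σ = 1 := by
    intro σ hσ
    apply ha
    rw [map_one]
    ext1 j
    obtain ⟨τ, hτ⟩ := htr' j
    have h1 : τ⁻¹ * σ * τ ∈ (FE ψ (q i₁)).fixingSubgroup := by
      rw [IntermediateField.mem_fixingSubgroup_iff]
      intro x hx
      have h2 : σ (τ x) = τ x :=
        (IntermediateField.mem_fixingSubgroup_iff _ _).1 hσ _ (nrm_mem M τ (hFM hx))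
      have h3 : (τ⁻¹ * σ * τ) x = τ⁻¹ (σ (τ x)) := rfl
      rw [h3, h2]
      exact AlgEquiv.symm_apply_apply τ x
    rw [fix_FE hk, mem_St, map_mul, map_mul, map_inv, Equiv.Perm.mul_apply,
      Equiv.Perm.mul_apply, hτ, Equiv.Perm.inv_eq_iff_eq, hτ] at h1
    exact h1
  refine ⟨?_, ?_⟩
  · intro x hx
    rw [← InfiniteGalois.fixedField_fixingSubgroup M, mem_fixedField_iff]
    intro σ hσ
    have h1 : (θ σ).1 i₁ = i₁ := by rw [hfix σ hσ]; rfl
    exact (IntermediateField.mem_fixingSubgroup_iff _ _).1 ((hst σ).1 h1) x hx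
  · have h1 : M ≤ normalClosure K E (AlgebraicClosure K) := by
      have hn : Normal K (normalClosure K E (AlgebraicClosure K)) := normalClosure.normal K _ _
      rw [hM]
      exact normalClosure_le_iff_of_normal.2 (hFE.trans (le_normalClosure E))
    have h2 : Module.finrank K M ≤
        Module.finrank K (normalClosure K E (AlgebraicClosure K)) :=
      Submodule.finrank_mono (s := Subalgebra.toSubmodule M.toSubalgebra)
        (t := Subalgebra.toSubmodule (normalClosure K E (AlgebraicClosure K)).toSubalgebra) h1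
    refine h2.trans (le_of_eq ?_)
    rw [finrank_eq_fixingSubgroup_index, ← hker, Subgroup.index_ker,
      MonoidHom.range_eq_top.2 hθ]
    exact Nat.card_congr Subgroup.topEquiv.toEquiv

end Pool.Agent.H96S.CJ
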