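import Pool.Agent.TH444.ML.Done

/-!
# Uniform counting of ideals and quadratic extensions, with exponent `s > 1`
-/

set_option autoImplicit false
set_option linter.unusedSectionVars false

open NumberField Pool.Agent.TH444.ML Pool.Agent.TH89.J3091

namespace Pool.Agent.H96S.CJ

/-- uniform counting of ideals, with exponent `s > 1` -/
theorem idealUnifS (D : ℕ) (s : ℝ) (hs : 1 < s) :
    ∃ C : ℝ, ∀ (M : Type) [Field M] [NumberField M], Module.finrank ℚ M = D →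
    ∀ Z : ℝ, 1 ≤ Z → {I : Ideal (𝓞 M) | I ≠ ⊥ ∧ (Ideal.absNorm I : ℝ) ≤ Z}.Finite ∧
      (Set.ncard {I : Ideal (𝓞 M) | I ≠ ⊥ ∧ (Ideal.absNorm I : ℝ) ≤ Z} : ℝ) ≤ C * Z ^ s := by
  classical
  set ζ : ℝ := ∑' n : ℕ, (1 : ℝ) / (n : ℝ) ^ s with hζ
  have hsum : Summable (fun n : ℕ => (1 : ℝ) / (n : ℝ) ^ s) :=
    Real.summable_one_div_nat_rpow.2 hs
  refine ⟨ζ ^ D, ?_⟩
  intro M _ _ hD Z hZ
  have hfin : {I : Ideal (𝓞 M) | I ≠ ⊥ ∧ (Ideal.absNorm I : ℝ) ≤ Z}.Finite := by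
    refine (Ideal.finite_setOfPred_absNorm_le (S := 𝓞 M) ⌊Z⌋₊).subset ?_
    rintro I ⟨-, hI⟩
    exact Nat.le_floor hI
  refine ⟨hfin, ?_⟩
  obtain ⟨j, hj, hinj⟩ := exists_index (M := M)
  set F : Finset (Ideal (𝓞 M)) := hfin.toFinset with hF
  have hmemF : ∀ I, I ∈ F ↔ I ≠ ⊥ ∧ (Ideal.absNorm I : ℝ) ≤ Z := by
    intro I; simp [hF]
  have hcard : Set.ncard {I : Ideal (𝓞 M) | I ≠ ⊥ ∧ (Ideal.absNorm I : ℝ) ≤ Z} = F.card := by
    rw [Set.ncard_eq_toFinset_card _ hfin]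
  rw [hcard]
  -- the tuple
  set Φ : Ideal (𝓞 M) → (Fin D → ℕ) := fun I i => co j i I with hΦ
  have hprod : ∀ I ∈ F, ((∏ i, Φ I i : ℕ) : ℝ) ≤ Z := by
    intro I hI
    rw [hmemF] at hI
    have h := prod_co_le j hj I hI.1
    rw [hD, Finset.prod_range] at h
    refine le_trans ?_ hI.2
    exact_mod_cast h
  have hΦinj : Set.InjOn Φ F := by
    intro I hI J hJ h
    rw [Finset.mem_coe, hmemF] at hI hJ
    refine co_inj j hj hinj I J hI.1 hJ.1 ?_
    intro i hi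
    rw [hD] at hi
    exact congrFun h ⟨i, hi⟩
  have hΦpos : ∀ I i, 1 ≤ Φ I i := fun I i => co_pos j i I
  set N : ℕ := ⌊Z⌋₊ with hN
  have hmem : ∀ I ∈ F, Φ I ∈ Fintype.piFinset (fun _ : Fin D => Finset.Icc 1 N) := by
    intro I hI
    rw [Fintype.mem_piFinset]
    intro i
    rw [Finset.mem_Icc]
    refine ⟨hΦpos I i, ?_⟩
    refine Nat.le_floor (le_trans ?_ (hprod I hI))
    have : Φ I i ∣ ∏ i, Φ I i := Finset.dvd_prod_of_mem _ (Finset.mem_univ i)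
    exact_mod_cast Nat.le_of_dvd (Finset.prod_pos fun i _ => hΦpos I i) this
  have hZ0 : (0 : ℝ) < Z := by linarith
  set w : (Fin D → ℕ) → ℝ := fun x => ∏ i, (1 : ℝ) / ((x i : ℕ) : ℝ) ^ s with hw
  have hw0 : ∀ x, 0 ≤ w x := fun x => Finset.prod_nonneg fun i _ => by positivity
  have h1 : ∀ I ∈ F, (1 : ℝ) ≤ Z ^ s * w (Φ I) := by
    intro I hI
    have hp : (0 : ℝ) < ((∏ i, Φ I i : ℕ) : ℝ) := by
      exact_mod_cast Finset.prod_pos fun i _ => hΦpos I i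
    have : w (Φ I) = 1 / ((∏ i, Φ I i : ℕ) : ℝ) ^ s := by
      rw [hw]
      simp only
      rw [Finset.prod_div_distrib, Finset.prod_const_one, Nat.cast_prod,
        ← Real.finsetProd_rpow _ _ (fun i _ => Nat.cast_nonneg _)]
    rw [this, mul_one_div, le_div_iff₀ (Real.rpow_pos_of_pos hp _), one_mul]
    exact Real.rpow_le_rpow hp.le (hprod I hI) (by linarith)
  calc (F.card : ℝ) = ∑ I ∈ F, (1 : ℝ) := by simp
    _ ≤ ∑ I ∈ F, Z ^ s * w (Φ I) := Finset.sum_le_sum h1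
    _ = Z ^ s * ∑ I ∈ F, w (Φ I) := by rw [Finset.mul_sum]
    _ = Z ^ s * ∑ x ∈ F.image Φ, w x := by rw [Finset.sum_image hΦinj]
    _ ≤ Z ^ s * ∑ x ∈ Fintype.piFinset (fun _ : Fin D => Finset.Icc 1 N), w x := by
        refine mul_le_mul_of_nonneg_left ?_ (by positivity)
        refine Finset.sum_le_sum_of_subset_of_nonneg ?_ (fun x _ _ => hw0 x)
        intro x hx
        rw [Finset.mem_image] at hx
        obtain ⟨I, hI, rfl⟩ := hx
        exact hmem I hI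
    _ = Z ^ s * ∏ _i : Fin D, ∑ n ∈ Finset.Icc 1 N, (1 : ℝ) / (n : ℝ) ^ s := by
        rw [Finset.prod_univ_sum]
    _ ≤ Z ^ s * ∏ _i : Fin D, ζ := by
        refine mul_le_mul_of_nonneg_left ?_ (by positivity)
        refine Finset.prod_le_prod (fun i _ => Finset.sum_nonneg fun n _ => by positivity) ?_
        intro i _
        exact hsum.sum_le_tsum _ (fun n _ => by positivity)
    _ = ζ ^ D * Z ^ s := by
        rw [Finset.prod_const, Finset.card_univ, Fintype.card_fin, mul_comm]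


end Pool.Agent.H96S.CJ
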