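import Mathlib

/-!
# Sums over sets with polynomial growth
-/

set_option autoImplicit false

namespace Pool.Agent.H96S.CJ

/-- a finite set with at most `C z ^ p` elements of size at most `z` -/
theorem sum_le {ι : Type} (S : Finset ι) (f : ι → ℕ) (hf : ∀ i ∈ S, 1 ≤ f i) (C p q : ℝ)
    (hC : 0 ≤ C) (hp : 0 ≤ p) (hpq : p < q)
    (h : ∀ z : ℝ, 1 ≤ z → ((S.filter (fun i => (f i : ℝ) ≤ z)).card : ℝ) ≤ C * z ^ p) :
    ∑ i ∈ S, ((f i : ℝ)) ^ (-q) ≤ C * 2 ^ p * (1 - (2 : ℝ) ^ (p - q))⁻¹ := by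
  classical
  have hq : 0 < q := lt_of_le_of_lt hp hpq
  set r : ℝ := (2 : ℝ) ^ (p - q) with hr
  have hr0 : 0 < r := by positivity
  have hr1 : r < 1 := Real.rpow_lt_one_of_one_lt_of_neg (by norm_num) (by linarith)
  -- dyadic blocks
  set N : ℕ := S.sup (fun i => Nat.log 2 (f i)) + 1 with hN
  have hmaps : ∀ i ∈ S, Nat.log 2 (f i) ∈ Finset.range N := by
    intro i hi
    rw [Finset.mem_range]
    exact Nat.lt_succ_of_le (Finset.le_sup (f := fun i => Nat.log 2 (f i)) hi)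
  have h1 : ∑ i ∈ S, ((f i : ℝ)) ^ (-q) =
      ∑ k ∈ Finset.range N, ∑ i ∈ S.filter (fun i => Nat.log 2 (f i) = k), ((f i : ℝ)) ^ (-q) :=
    (Finset.sum_fiberwise_of_maps_to hmaps _).symm
  rw [h1]
  have h2 : ∀ k ∈ Finset.range N,
      ∑ i ∈ S.filter (fun i => Nat.log 2 (f i) = k), ((f i : ℝ)) ^ (-q) ≤
        C * 2 ^ p * r ^ k := by
    intro k _
    have h3 : ∀ i ∈ S.filter (fun i => Nat.log 2 (f i) = k),
        ((f i : ℝ)) ^ (-q) ≤ ((2 : ℝ) ^ k) ^ (-q) := by
      intro i hi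
      rw [Finset.mem_filter] at hi
      have h4 : 2 ^ k ≤ f i := by
        rw [← hi.2]
        exact Nat.pow_log_le_self 2 (by have := hf i hi.1; omega)
      have h5 : ((2 : ℝ)) ^ k ≤ (f i : ℝ) := by exact_mod_cast h4
      exact Real.rpow_le_rpow_of_nonpos (by positivity) h5 (by linarith)
    have h4 : ((S.filter (fun i => Nat.log 2 (f i) = k)).card : ℝ) ≤
        C * ((2 : ℝ) ^ (k + 1)) ^ p := by
      refine le_trans ?_ (h ((2 : ℝ) ^ (k + 1)) (one_le_pow₀ (by norm_num)))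
      have h5 : S.filter (fun i => Nat.log 2 (f i) = k) ⊆
          S.filter (fun i => (f i : ℝ) ≤ (2 : ℝ) ^ (k + 1)) := by
        intro i hi
        rw [Finset.mem_filter] at hi ⊢
        refine ⟨hi.1, ?_⟩
        have h6 : f i < 2 ^ (Nat.log 2 (f i) + 1) := Nat.lt_pow_succ_log_self (by norm_num) _
        rw [hi.2] at h6
        exact_mod_cast h6.le
      exact_mod_cast Finset.card_le_card h5
    calc ∑ i ∈ S.filter (fun i => Nat.log 2 (f i) = k), ((f i : ℝ)) ^ (-q)
        ≤ ∑ i ∈ S.filter (fun i => Nat.log 2 (f i) = k), ((2 : ℝ) ^ k) ^ (-q) :=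
          Finset.sum_le_sum h3
      _ = ((S.filter (fun i => Nat.log 2 (f i) = k)).card : ℝ) * ((2 : ℝ) ^ k) ^ (-q) := by
          rw [Finset.sum_const, nsmul_eq_mul]
      _ ≤ (C * ((2 : ℝ) ^ (k + 1)) ^ p) * ((2 : ℝ) ^ k) ^ (-q) :=
          mul_le_mul_of_nonneg_right h4 (by positivity)
      _ = C * 2 ^ p * r ^ k := by
          rw [hr, ← Real.rpow_natCast, ← Real.rpow_natCast, ← Real.rpow_natCast,
            ← Real.rpow_mul (by norm_num), ← Real.rpow_mul (by norm_num),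
            ← Real.rpow_mul (by norm_num), mul_assoc, mul_assoc, ← Real.rpow_add (by norm_num),
            ← Real.rpow_add (by norm_num)]
          congr 2
          push_cast
          ring
  refine (Finset.sum_le_sum h2).trans ?_
  rw [← Finset.mul_sum]
  apply mul_le_mul_of_nonneg_left _ (by positivity)
  rw [← tsum_geometric_of_lt_one hr0.le hr1]
  exact (summable_geometric_of_lt_one hr0.le hr1).sum_le_tsum _ (fun k _ => by positivity)

end Pool.Agent.H96S.CJ
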