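import Pool.Agent.H96S.CJ.M1
import Pool.Agent.H96S.CJ.N2
import Pool.Agent.H96S.CJ.S1

/-!
# The upper bounds
-/

set_option autoImplicit false
set_option linter.unusedSectionVars false
set_option synthInstance.maxHeartbeats 400000

open NumberField IntermediateField Pool.Agent.TH444.ML Pool.Agent.H96S.CI

namespace Pool.Agent.H96S.CJ

variable (K : Type) [Field K] [NumberField K]

/-- the upper bound `N(K, G; X) ≤ C X ^ s` for all `s > 1` -/
def UB (n : ℕ) (G : Subgroup (Equiv.Perm (Fin n))) : Prop :=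
  ∀ s : ℝ, 1 < s → ∃ C : ℝ, 0 ≤ C ∧ ∀ X : ℝ, 1 ≤ X → (Set.ncard (CS K n G X) : ℝ) ≤ C * X ^ s

theorem dsc_floor {Ω : Type} [Field Ω] [Algebra K Ω] (M : IntermediateField K Ω) :
    ((⌊dsc M⌋₊ : ℕ) : ℝ) = dsc M := by
  obtain ⟨m, hm⟩ : ∃ m : ℕ, dsc M = (m : ℝ) := by
    unfold dsc
    split_ifs with h
    · exact ⟨(@discr M _ h).natAbs, by rw [Nat.cast_natAbs]⟩
    · exact ⟨1, by simp⟩
  rw [hm, Nat.floor_natCast]

theorem disc_one_le : (1 : ℝ) ≤ ((|discr K| : ℤ) : ℝ) := by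
  exact_mod_cast Int.one_le_abs (discr_ne_zero K)

/-- the tower formula as an inequality -/
theorem dsc_tower {F E : IntermediateField K (AlgebraicClosure K)} (hFE : F ≤ E)
    [FiniteDimensional K E] [FiniteDimensional K F] (w : ℕ)
    (h : Module.finrank K F * w = Module.finrank K E) : dsc F ^ w ≤ dsc E := by
  have hnF : NumberField F := nf_of_fd F
  have hnE : NumberField E := nf_of_fd E
  have hnE' : NumberField (extendScalars hFE) := hnE
  have h1 := tower_le F (extendScalars hFE)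
  have hfree : Module.Free F (extendScalars hFE) := Module.Free.of_divisionRing _ _
  have h2 : Module.finrank K F * Module.finrank F (extendScalars hFE) = Module.finrank K E :=
    Module.finrank_mul_finrank K F (extendScalars hFE)
  have hpos : 0 < Module.finrank K F := Module.finrank_pos
  have h3 : Module.finrank F (extendScalars hFE) = w :=
    Nat.eq_of_mul_eq_mul_left hpos (h2.trans h.symm)
  rw [h3] at h1
  have h4 : ((discr F).natAbs : ℝ) = dsc F := by rw [dsc_eq F, Nat.cast_natAbs]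
  have h5 : ((discr E).natAbs : ℝ) = dsc E := by rw [dsc_eq E, Nat.cast_natAbs]
  rw [← h4, ← h5]
  exact_mod_cast h1

/-- the upper bound for `C₂ ≀ H` -/
theorem step_up {n d : ℕ} {G : Subgroup (Equiv.Perm (Fin n))} {H : Subgroup (Equiv.Perm (Fin d))}
    (hd : 0 < d) (hH : ∀ i j : Fin d, ∃ g ∈ H, g i = j)
    (a : G →* Equiv.Perm (Fin d)) (q : Fin n → Fin d)
    (hq : ∀ (g : G) x, q (g.1 x) = a g (q x)) (ha : a.range = H) (hn : n = 2 * d)
    (hUB : UB K d H) : UB K n G := by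
  classical
  intro s hs
  have htr : ∀ i j : Fin d, ∃ g : G, a g i = j := by
    intro i j
    obtain ⟨h, hh, h1⟩ := hH i j
    rw [← ha] at hh
    obtain ⟨g, rfl⟩ := hh
    exact ⟨g, h1⟩
  obtain ⟨CH, hCH0, hCH⟩ := hUB (5 / 4) (by norm_num)
  obtain ⟨CQ, hCQ0, hCQ⟩ := quadS (Module.finrank ℚ K * d) s hs
  set δ : ℝ := ((|discr K| : ℤ) : ℝ) with hδ
  have hδ1 : 1 ≤ δ := disc_one_le K
  have hδ0 : 0 < δ := by linarith
  set κ : ℝ := CH * 2 ^ (5 / 4 : ℝ) *
    (1 - (2 : ℝ) ^ ((5 / 4 : ℝ) - (2 * s - 5 / 8)))⁻¹ with hκ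
  have hκ0 : 0 ≤ κ := by
    have h1 : (2 : ℝ) ^ ((5 / 4 : ℝ) - (2 * s - 5 / 8)) < 1 :=
      Real.rpow_lt_one_of_one_lt_of_neg (by norm_num) (by linarith)
    have h2 : 0 < 1 - (2 : ℝ) ^ ((5 / 4 : ℝ) - (2 * s - 5 / 8)) := by linarith
    positivity
  refine ⟨CQ * (δ ^ n) ^ s * κ, by positivity, ?_⟩
  intro X hX
  have hX0 : 0 < X := by linarith
  set A : ℝ := X * δ ^ n with hA
  have hA0 : 0 < A := by positivity
  have hn0 : 0 < n := by omega
  have hFf := CS_finite K hd H (√X)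
  have hEf := CS_finite K hn0 G X
  have hfd : ∀ F ∈ CS K d H (√X), FiniteDimensional K F := fun F hF =>
    FiniteDimensional.of_finrank_pos (by rw [hF.1]; exact hd)
  have hAS : ∀ F : {F // F ∈ hFf.toFinset}, (AS F.1 (A / dsc F.1 ^ 2)).Finite := by
    intro F
    have := hfd F.1 (hFf.mem_toFinset.1 F.2)
    exact finite_AS' quadUnif F.1 _ (by positivity)
  have hsub : hEf.toFinset ⊆ (hFf.toFinset).attach.biUnion (fun F => (hAS F).toFinset) := by
    intro E hE
    rw [Set.Finite.mem_toFinset] at hE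
    obtain ⟨h1, h2, h3, h4⟩ := hE
    have hfE : FiniteDimensional K E := FiniteDimensional.of_finrank_pos (by omega)
    obtain ⟨F, hFE, hF1, hF2, -⟩ := sub_field K h2 a q hq htr
    have hfF : FiniteDimensional K F := FiniteDimensional.of_finrank_pos (by omega)
    have hnF : NumberField F := nf_of_fd F
    rw [ha] at hF2
    have h5 : dsc F ^ 2 ≤ dsc E := dsc_tower K hFE 2 (by rw [hF1, h1, hn, mul_comm])
    have h6 : dsc E ≤ A := by rw [dsc_eq E]; exact h4
    have h7 : dsc F ≤ √X * δ ^ d := by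
      have h8 : dsc F ^ 2 ≤ (√X * δ ^ d) ^ 2 := by
        rw [mul_pow, Real.sq_sqrt hX0.le, ← pow_mul, mul_comm d 2, ← hn]
        exact h5.trans h6
      exact (pow_le_pow_iff_left₀ (le_trans zero_le_one (one_le_dsc _)) (by positivity)
        two_ne_zero).1 h8
    have hFmem : F ∈ CS K d H (√X) := ⟨hF1, hF2, hnF, by rw [← dsc_eq]; exact h7⟩
    rw [Finset.mem_biUnion]
    refine ⟨⟨F, hFf.mem_toFinset.2 hFmem⟩, Finset.mem_attach _ _, ?_⟩
    rw [Set.Finite.mem_toFinset]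
    refine ⟨hFE, by rw [h1, hF1, hn], ?_⟩
    have h9 : 0 < dsc F := lt_of_lt_of_le one_pos (one_le_dsc F)
    rw [div_mul_cancel₀ _ (by positivity)]
    exact h6
  have hcard : (Set.ncard (CS K n G X) : ℝ) ≤
      ∑ F ∈ hFf.toFinset.attach, (Set.ncard (AS F.1 (A / dsc F.1 ^ 2)) : ℝ) := by
    rw [Set.ncard_eq_toFinset_card _ hEf]
    have h1 := (Finset.card_le_card hsub).trans Finset.card_biUnion_le
    have h2 : ∑ F ∈ hFf.toFinset.attach, ((hAS F).toFinset).card =
        ∑ F ∈ hFf.toFinset.attach, Set.ncard (AS F.1 (A / dsc F.1 ^ 2)) :=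
      Finset.sum_congr rfl fun F _ => (Set.ncard_eq_toFinset_card _ (hAS F)).symm
    rw [h2] at h1
    exact_mod_cast h1
  have hterm : ∀ F ∈ hFf.toFinset, (Set.ncard (AS F (A / dsc F ^ 2)) : ℝ) ≤
      CQ * A ^ s * ((⌊dsc F⌋₊ : ℕ) : ℝ) ^ (-(2 * s - 5 / 8)) := by
    intro F hF
    rw [Set.Finite.mem_toFinset] at hF
    have hfF := hfd F hF
    have hnF : NumberField F := nf_of_fd F
    have hac : IsAlgClosed (AlgebraicClosure K) := inferInstance
    have hD : Module.finrank ℚ F = Module.finrank ℚ K * d := by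
      rw [← hF.1, Module.finrank_mul_finrank ℚ K F]
    have h9 : 0 < dsc F := lt_of_lt_of_le one_pos (one_le_dsc F)
    rw [ncard_AS F]
    refine (hCQ F (AlgebraicClosure K) hD _ (by positivity)).trans ?_
    rw [← dsc_eq F, dsc_floor, Real.div_rpow hA0.le (by positivity), ← Real.rpow_natCast,
      ← Real.rpow_mul h9.le]
    apply le_of_eq
    have h10 : dsc F ^ (-(2 * s - 5 / 8)) = dsc F ^ (5 / 8 : ℝ) / dsc F ^ (((2 : ℕ) : ℝ) * s) := by
      rw [← Real.rpow_sub h9]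
      congr 1
      push_cast
      ring
    rw [h10]
    ring
  have hsum := sum_le hFf.toFinset (fun F => ⌊dsc F⌋₊) (by
      intro F _
      have : (1 : ℝ) ≤ ((⌊dsc F⌋₊ : ℕ) : ℝ) := by rw [dsc_floor]; exact one_le_dsc F
      exact_mod_cast this) CH (5 / 4) (2 * s - 5 / 8) hCH0 (by norm_num) (by linarith) (by
      intro z hz
      refine le_trans ?_ (hCH z hz)
      rw [Set.ncard_eq_toFinset_card _ (CS_finite K hd H z)]
      have : (hFf.toFinset.filter (fun F => (((⌊dsc F⌋₊ : ℕ)) : ℝ) ≤ z)) ⊆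
          (CS_finite K hd H z).toFinset := by
        intro F hF
        rw [Finset.mem_filter, Set.Finite.mem_toFinset, dsc_floor] at hF
        rw [Set.Finite.mem_toFinset]
        obtain ⟨⟨h1, h2, h3, h4⟩, h5⟩ := hF
        refine ⟨h1, h2, h3, ?_⟩
        rw [← dsc_eq F]
        exact h5.trans (le_mul_of_one_le_right (by linarith) (one_le_pow₀ hδ1))
      exact_mod_cast Finset.card_le_card this)
  calc (Set.ncard (CS K n G X) : ℝ)
      ≤ ∑ F ∈ hFf.toFinset.attach, (Set.ncard (AS F.1 (A / dsc F.1 ^ 2)) : ℝ) := hcard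
    _ = ∑ F ∈ hFf.toFinset, (Set.ncard (AS F (A / dsc F ^ 2)) : ℝ) :=
        Finset.sum_attach _ (fun F => (Set.ncard (AS F (A / dsc F ^ 2)) : ℝ))
    _ ≤ ∑ F ∈ hFf.toFinset, CQ * A ^ s * ((⌊dsc F⌋₊ : ℕ) : ℝ) ^ (-(2 * s - 5 / 8)) :=
        Finset.sum_le_sum hterm
    _ = CQ * A ^ s * ∑ F ∈ hFf.toFinset, ((⌊dsc F⌋₊ : ℕ) : ℝ) ^ (-(2 * s - 5 / 8)) := by
        rw [Finset.mul_sum]
    _ ≤ CQ * A ^ s * κ := mul_le_mul_of_nonneg_left hsum (by positivity)
    _ = CQ * (δ ^ n) ^ s * κ * X ^ s := by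
        rw [hA, Real.mul_rpow hX0.le (by positivity)]
        ring

end Pool.Agent.H96S.CJ
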