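import Pool.Agent.H96S.CJ.T1

/-!
# The upper bound for groups with a faithful system of few blocks
-/

set_option autoImplicit false
set_option linter.unusedSectionVars false
set_option synthInstance.maxHeartbeats 400000

open NumberField IntermediateField Pool.Agent.TH444.ML Pool.Agent.H96S.CI

namespace Pool.Agent.H96S.CJ

variable (K : Type) [Field K] [NumberField K]

/-- the number of subfields -/
theorem card_sub (M : IntermediateField K (AlgebraicClosure K)) [FiniteDimensional K M]
    [Normal K M] (S : Finset (IntermediateField K (AlgebraicClosure K))) (hS : ∀ E ∈ S, E ≤ M) :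
    S.card ≤ 2 ^ Module.finrank K M := by
  classical
  have hgal : IsGalois K M := ⟨⟩
  have hc : Nat.card (M ≃ₐ[K] M) = Module.finrank K M := IsGalois.card_aut_eq_finrank K M
  have hcard : (Finset.univ : Finset (Set (M ≃ₐ[K] M))).card = 2 ^ Module.finrank K M := by
    rw [Finset.card_univ, Fintype.card_set, ← Nat.card_eq_fintype_card, hc]
  rw [← hcard]
  refine Finset.card_le_card_of_injOn
    (fun E => {τ : M ≃ₐ[K] M | ∀ x : M, (x : AlgebraicClosure K) ∈ E → τ x = x})
    (fun _ _ => Finset.mem_univ _) ?_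
  have key : ∀ E ∈ S, ∀ E' ∈ S,
      {τ : M ≃ₐ[K] M | ∀ x : M, (x : AlgebraicClosure K) ∈ E → τ x = x} =
      {τ : M ≃ₐ[K] M | ∀ x : M, (x : AlgebraicClosure K) ∈ E' → τ x = x} → E ≤ E' := by
    intro E hE E' hE' h x hx
    rw [← InfiniteGalois.fixedField_fixingSubgroup E', mem_fixedField_iff]
    intro σ hσ
    have h1 : AlgEquiv.restrictNormalHom M σ ∈
        {τ : M ≃ₐ[K] M | ∀ x : M, (x : AlgebraicClosure K) ∈ E' → τ x = x} := by
      intro y hy
      apply Subtype.ext
      have h2 : ((AlgEquiv.restrictNormalHom M σ y : M) : AlgebraicClosure K) = σ y :=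
        AlgEquiv.restrictNormal_commutes σ M y
      rw [h2]
      exact (IntermediateField.mem_fixingSubgroup_iff _ _).1 hσ _ hy
    rw [← h] at h1
    have h3 := h1 ⟨x, hS E hE hx⟩ hx
    have h2 : ((AlgEquiv.restrictNormalHom M σ ⟨x, hS E hE hx⟩ : M) : AlgebraicClosure K) = σ x :=
      AlgEquiv.restrictNormal_commutes σ M ⟨x, hS E hE hx⟩
    rw [← h2, h3]
  intro E hE E' hE' h
  exact le_antisymm (key E hE E' hE' h) (key E' hE' E hE h.symm)

theorem base_bound {n u : ℕ} {G : Subgroup (Equiv.Perm (Fin n))} (hn : 0 < n)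
    (a : G →* Equiv.Perm (Fin u)) (ha : Function.Injective a) (q : Fin n → Fin u)
    (hq : ∀ (g : G) x, q (g.1 x) = a g (q x)) (htr : ∀ i j : Fin u, ∃ g : G, a g i = j)
    (w : ℕ) (hw : n = u * w) (huw : 2 * u ≤ w) : UB K n G := by
  classical
  have hu : 0 < u := by
    rcases Nat.eq_zero_or_pos u with rfl | h
    · rw [zero_mul] at hw; omega
    · exact h
  have hw0 : 0 < w := by omega
  obtain ⟨C, hC⟩ := Pool.Agent.TH979.J3100.hermiteRel K (AlgebraicClosure K) u
  set δ : ℝ := ((|discr K| : ℤ) : ℝ) with hδ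
  have hδ1 : 1 ≤ δ := disc_one_le K
  intro s hs
  refine ⟨2 ^ Nat.card G * (|C| * δ ^ n), by positivity, ?_⟩
  intro X hX
  have hX0 : 0 < X := by linarith
  set A : ℝ := X * δ ^ n with hA
  have hA1 : 1 ≤ A := by
    have := one_le_pow₀ hδ1 (n := n)
    nlinarith
  have hA0 : 0 < A := by linarith
  set Z : ℝ := A ^ ((1 : ℝ) / w) with hZ
  have hwR : (0 : ℝ) < w := by exact_mod_cast hw0
  have hZ1 : 1 ≤ Z := Real.one_le_rpow hA1 (by positivity)
  have hFf := (hC Z hZ1).1
  have hFc := (hC Z hZ1).2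
  have hEf := CS_finite K hn G X
  -- the subfield
  have hex : ∀ E : IntermediateField K (AlgebraicClosure K),
      ∃ F : IntermediateField K (AlgebraicClosure K), E ∈ CS K n G X →
        (F ≤ E ∧ Module.finrank K F = u ∧ E ≤ normalClosure K F (AlgebraicClosure K) ∧
          Module.finrank K (normalClosure K F (AlgebraicClosure K)) ≤ Nat.card G) := by
    intro E
    by_cases hE : E ∈ CS K n G X
    · have hfE : FiniteDimensional K E := FiniteDimensional.of_finrank_pos (by rw [hE.1]; exact hn)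
      obtain ⟨F, h1, h2, -, h3⟩ := sub_field K hE.2.1 a q hq htr
      exact ⟨F, fun _ => ⟨h1, h2, (h3 ha).1, (h3 ha).2⟩⟩
    · exact ⟨⊥, fun h => absurd h hE⟩
  choose g hg using hex
  have hfib : hEf.toFinset.card ≤ 2 ^ Nat.card G * (hEf.toFinset.image g).card := by
    apply Finset.card_le_mul_card_image
    intro F hF
    obtain ⟨E₁, hE₁, rfl⟩ := Finset.mem_image.1 hF
    rw [Set.Finite.mem_toFinset] at hE₁
    obtain ⟨-, h2, -, h4⟩ := hg E₁ hE₁
    have hfF : FiniteDimensional K (g E₁) := FiniteDimensional.of_finrank_pos (by omega)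
    have hMf : FiniteDimensional K (normalClosure K (g E₁) (AlgebraicClosure K)) :=
      normalClosure.is_finiteDimensional K _ _
    have hMn : Normal K (normalClosure K (g E₁) (AlgebraicClosure K)) :=
      normalClosure.normal K _ _
    refine (card_sub K (normalClosure K (g E₁) (AlgebraicClosure K)) _ ?_).trans
      (Nat.pow_le_pow_right (by norm_num) h4)
    intro E hE
    rw [Finset.mem_filter, Set.Finite.mem_toFinset] at hE
    have h5 := (hg E hE.1).2.2.1
    rw [hE.2] at h5
    exact h5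
  have himg : hEf.toFinset.image g ⊆ hFf.toFinset := by
    intro F hF
    obtain ⟨E, hE, rfl⟩ := Finset.mem_image.1 hF
    rw [Set.Finite.mem_toFinset] at hE ⊢
    obtain ⟨h1, h2, -, -⟩ := hg E hE
    have hfF : FiniteDimensional K (g E) := FiniteDimensional.of_finrank_pos (by omega)
    have hfE : FiniteDimensional K E := FiniteDimensional.of_finrank_pos (by rw [hE.1]; exact hn)
    refine ⟨hfF, h2, ?_⟩
    have h5 : dsc (g E) ^ w ≤ dsc E := dsc_tower K h1 w (by rw [h2, hE.1, hw])
    have h6 : dsc E ≤ A := by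
      obtain ⟨-, -, h7, h8⟩ := hE
      rw [dsc_eq E]; exact h8
    have h7 : dsc (g E) ^ w ≤ Z ^ w := by
      rw [hZ, ← Real.rpow_natCast, ← Real.rpow_natCast, ← Real.rpow_mul hA0.le, one_div,
        inv_mul_cancel₀ hwR.ne', Real.rpow_one, Real.rpow_natCast]
      exact h5.trans h6
    exact (pow_le_pow_iff_left₀ (le_trans zero_le_one (one_le_dsc _)) (by positivity)
      hw0.ne').1 h7
  have h1 : (Set.ncard (CS K n G X) : ℝ) ≤ 2 ^ Nat.card G * (hFf.toFinset.card : ℝ) := by
    rw [Set.ncard_eq_toFinset_card _ hEf]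
    exact_mod_cast hfib.trans (Nat.mul_le_mul_left _ (Finset.card_le_card himg))
  have h2 : (hFf.toFinset.card : ℝ) ≤ |C| * A := by
    rw [← Set.ncard_eq_toFinset_card _ hFf]
    refine hFc.trans ((mul_le_mul_of_nonneg_right (le_abs_self C) (by positivity)).trans ?_)
    apply mul_le_mul_of_nonneg_left _ (abs_nonneg _)
    rw [hZ, ← Real.rpow_natCast, ← Real.rpow_mul hA0.le]
    have h3 : (1 : ℝ) / w * ((2 * u : ℕ) : ℝ) ≤ 1 := by
      rw [one_div, inv_mul_le_iff₀ hwR, mul_one]
      exact_mod_cast huw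
    calc A ^ ((1 : ℝ) / w * ((2 * u : ℕ) : ℝ)) ≤ A ^ (1 : ℝ) :=
          Real.rpow_le_rpow_of_exponent_le hA1 h3
      _ = A := Real.rpow_one A
  have h3 : X ≤ X ^ s := by
    calc X = X ^ (1 : ℝ) := (Real.rpow_one X).symm
      _ ≤ X ^ s := Real.rpow_le_rpow_of_exponent_le hX hs.le
  calc (Set.ncard (CS K n G X) : ℝ) ≤ 2 ^ Nat.card G * (hFf.toFinset.card : ℝ) := h1
    _ ≤ 2 ^ Nat.card G * (|C| * A) := mul_le_mul_of_nonneg_left h2 (by positivity)
    _ = 2 ^ Nat.card G * (|C| * δ ^ n) * X := by rw [hA]; ring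
    _ ≤ 2 ^ Nat.card G * (|C| * δ ^ n) * X ^ s := mul_le_mul_of_nonneg_left h3 (by positivity)

end Pool.Agent.H96S.CJ
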