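import Pool.Agent.H96S.CJ.T2

/-!
# The wreath products `C₂ ≀ H`
-/

set_option autoImplicit false
set_option linter.unusedSectionVars false
set_option synthInstance.maxHeartbeats 400000

open NumberField IntermediateField Pool.Agent.TH444.ML Pool.Agent.H96S.CI
open Pool.Agent.TH444.TW (Cls)

namespace Pool.Agent.H96S.CJ

variable {n d : ℕ}

/-- `G = C₂ ≀ H` on `{1, ..., d} × {0, 1}` -/
def C2 (H : Subgroup (Equiv.Perm (Fin d))) (G : Subgroup (Equiv.Perm (Fin n))) : Prop :=
  ∃ f : Fin n ≃ Fin d × Bool, ∀ π : Equiv.Perm (Fin n), π ∈ G ↔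
    ∃ h ∈ H, ∀ i, (f (π i)).1 = h (f i).1

variable {H : Subgroup (Equiv.Perm (Fin d))} {G : Subgroup (Equiv.Perm (Fin n))}

theorem c2_card (hG : C2 H G) : n = 2 * d := by
  obtain ⟨f, -⟩ := hG
  have := Nat.card_congr f
  rw [Nat.card_fin, Nat.card_prod, Nat.card_fin, Nat.card_eq_fintype_card, Fintype.card_bool] at this
  omega

/-- the lift of a permutation of the blocks -/
def lf (f : Fin n ≃ Fin d × Bool) : Equiv.Perm (Fin d) →* Equiv.Perm (Fin n) where
  toFun h := f.trans ((h.prodCongr (Equiv.refl Bool)).trans f.symm)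
  map_one' := by ext i; simp
  map_mul' h h' := by ext i; simp; rfl

theorem lf_apply (f : Fin n ≃ Fin d × Bool) (h : Equiv.Perm (Fin d)) (i : Fin n) :
    f (lf f h i) = (h (f i).1, (f i).2) := by
  show f (f.symm (Prod.map h id (f i))) = _
  rw [Equiv.apply_symm_apply]
  rfl

theorem c2_hom (hG : C2 H G) : ∃ (f : Fin n ≃ Fin d × Bool) (a : G →* Equiv.Perm (Fin d)),
    (∀ (g : G) x, (f (g.1 x)).1 = a g (f x).1) ∧ a.range = H ∧
    (∀ h ∈ H, lf f h ∈ G) ∧ ∀ π : Equiv.Perm (Fin n), (∀ i, (f (π i)).1 = (f i).1) → π ∈ G := by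
  obtain ⟨f, hf⟩ := hG
  have huniq : ∀ h h' : Equiv.Perm (Fin d), (∀ i : Fin n, h (f i).1 = h' (f i).1) → h = h' := by
    intro h h' hh
    ext1 y
    have := hh (f.symm (y, false))
    rwa [Equiv.apply_symm_apply] at this
  have hex : ∀ g : G, ∃ h : Equiv.Perm (Fin d), h ∈ H ∧ ∀ i, (f (g.1 i)).1 = h (f i).1 :=
    fun g => (hf g.1).1 g.2
  choose h hh1 hh2 using hex
  let a : G →* Equiv.Perm (Fin d) :=
    { toFun := h
      map_one' := by
        apply huniq
        intro i
        rw [← hh2 1 i]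
        rfl
      map_mul' := by
        intro g g'
        apply huniq
        intro i
        rw [← hh2 (g * g') i]
        show (f (g.1 (g'.1 i))).1 = h g (h g' (f i).1)
        rw [hh2, hh2] }
  have hl : ∀ k ∈ H, lf f k ∈ G := by
    intro k hk
    rw [hf]
    exact ⟨k, hk, fun i => by rw [lf_apply]⟩
  refine ⟨f, a, hh2, ?_, hl, ?_⟩
  · apply le_antisymm
    · rintro _ ⟨g, rfl⟩
      exact hh1 g
    · intro k hk
      refine ⟨⟨lf f k, hl k hk⟩, ?_⟩
      apply huniq
      intro i
      have h1 := hh2 ⟨lf f k, hl k hk⟩ i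
      have h2 : (f (lf f k i)).1 = k (f i).1 := by rw [lf_apply]
      exact h1.symm.trans h2
  · intro π hπ
    rw [hf]
    exact ⟨1, H.one_mem, fun i => by rw [hπ]; rfl⟩

theorem c2_trans (hG : C2 H G) (hH : ∀ i j : Fin d, ∃ g ∈ H, g i = j) (i j : Fin n) :
    ∃ g ∈ G, g i = j := by
  obtain ⟨f, a, -, -, hl, hk⟩ := c2_hom hG
  obtain ⟨h, hh, h1⟩ := hH (f i).1 (f j).1
  let t : Equiv.Perm (Fin n) := Equiv.swap (lf f h i) j
  have ht : t ∈ G := by
    apply hk
    intro x
    have h2 : (f (lf f h i)).1 = (f j).1 := by rw [lf_apply, h1]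
    by_cases h3 : x = lf f h i
    · subst h3; show (f (Equiv.swap _ _ _)).1 = _; rw [Equiv.swap_apply_left, h2]
    · by_cases h4 : x = j
      · subst h4; show (f (Equiv.swap _ _ _)).1 = _; rw [Equiv.swap_apply_right, h2]
      · show (f (Equiv.swap _ _ _)).1 = _
        rw [Equiv.swap_apply_of_ne_of_ne h3 h4]
  refine ⟨t * lf f h, G.mul_mem ht (hl h hh), ?_⟩
  show Equiv.swap (lf f h i) j (lf f h i) = j
  rw [Equiv.swap_apply_left]

/-- the transposition -/
theorem c2_dc (hG : C2 H G) (hd : 0 < d) : ∃ v : G, DC v ∧ ind v.1 = 1 := by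
  classical
  obtain ⟨f, a, ha, -, -, hk⟩ := c2_hom hG
  let y₀ : Fin d := ⟨0, hd⟩
  let x₀ := f.symm (y₀, false)
  let x₁ := f.symm (y₀, true)
  have hf0 : f x₀ = (y₀, false) := Equiv.apply_symm_apply _ _
  have hf1 : f x₁ = (y₀, true) := Equiv.apply_symm_apply _ _
  have hne : x₀ ≠ x₁ := by
    intro h
    have := congrArg f h
    rw [hf0, hf1] at this
    simp at this
  have hs : Equiv.swap x₀ x₁ ∈ G := by
    apply hk
    intro i
    by_cases h1 : i = x₀
    · rw [h1, Equiv.swap_apply_left, hf0, hf1]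
    · by_cases h2 : i = x₁
      · rw [h2, Equiv.swap_apply_right, hf0, hf1]
      · rw [Equiv.swap_apply_of_ne_of_ne h1 h2]
  refine ⟨⟨Equiv.swap x₀ x₁, hs⟩, ⟨?_, ?_, ?_⟩, ind_swap hne⟩
  · apply Subtype.ext
    exact Equiv.swap_mul_self _ _
  · intro h
    exact hne (Equiv.swap_eq_one_iff.1 (congrArg Subtype.val h))
  · intro g
    have hconj : (g * ⟨Equiv.swap x₀ x₁, hs⟩ * g⁻¹ : G).1 = Equiv.swap (g.1 x₀) (g.1 x₁) :=
      (Equiv.swap_apply_apply _ _ _).symm
    have e0 : (f (g.1 x₀)).1 = a g y₀ := by rw [ha, hf0]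
    have e1 : (f (g.1 x₁)).1 = a g y₀ := by rw [ha, hf1]
    have hne' : g.1 x₀ ≠ g.1 x₁ := fun h => hne (g.1.injective h)
    by_cases h : a g y₀ = y₀
    · left
      apply Subtype.ext
      rw [hconj]
      rw [h] at e0 e1
      have hb : ∀ z : Fin n, (f z).1 = y₀ → z = x₀ ∨ z = x₁ := by
        intro z hz
        rcases hb : (f z).2 with _ | _
        · left
          apply f.injective
          rw [hf0]
          exact Prod.ext hz hb
        · right
          apply f.injective
          rw [hf1]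
          exact Prod.ext hz hb
      show Equiv.swap (g.1 x₀) (g.1 x₁) = Equiv.swap x₀ x₁
      rcases hb _ e0 with h1 | h1 <;> rcases hb _ e1 with h2 | h2
      · exact absurd (h1.trans h2.symm) hne'
      · rw [h1, h2]
      · rw [h1, h2, Equiv.swap_comm]
      · exact absurd (h1.trans h2.symm) hne'
    · right
      intro x
      rw [hconj]
      by_cases h1 : (f x).1 = y₀
      · right
        apply Equiv.swap_apply_of_ne_of_ne
        · rintro rfl
          exact h (e0.symm.trans h1)
        · rintro rfl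
          exact h (e1.symm.trans h1)
      · left
        show Equiv.swap x₀ x₁ x = x
        apply Equiv.swap_apply_of_ne_of_ne
        · rintro rfl
          exact h1 (by rw [hf0])
        · rintro rfl
          exact h1 (by rw [hf1])

/-- the group is in the class -/
theorem c2_cls (K : Type) [Field K] (hG : C2 H G) {T : Type} [Group T] [Subsingleton T]
    (hH : Cls K (1 : H →* T)) : Cls K (1 : G →* T) := by
  classical
  obtain ⟨f, a, ha, hr, hl, hk⟩ := c2_hom hG
  have hmem : ∀ g, a g ∈ H := fun g => by rw [← hr]; exact ⟨g, rfl⟩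
  let p : G →* H := a.codRestrict H hmem
  let s : H →* G :=
    { toFun := fun h => ⟨lf f h.1, hl h.1 h.2⟩
      map_one' := Subtype.ext (map_one (lf f))
      map_mul' := fun h h' => Subtype.ext (map_mul (lf f) h.1 h'.1) }
  have hps : ∀ h, p (s h) = h := by
    intro h
    apply Subtype.ext
    show a (s h) = h.1
    ext1 y
    have h1 := ha (s h) (f.symm (y, false))
    rw [Equiv.apply_symm_apply] at h1
    have h2 : (f ((s h).1 (f.symm (y, false)))).1 = h.1 y := by
      show (f (lf f h.1 (f.symm (y, false)))).1 = h.1 y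
      rw [lf_apply, Equiv.apply_symm_apply]
    exact h1.symm.trans h2
  have hcomm : ∀ x y : G, p x = 1 → p y = 1 → x * y = y * x := by
    intro x y hx hy
    let sw : Fin n → Fin n := fun i => f.symm ((f i).1, !(f i).2)
    have hsw : ∀ i, f (sw i) = ((f i).1, !(f i).2) := fun i => Equiv.apply_symm_apply _ _
    have hsw2 : ∀ i, sw i ≠ i := by
      intro i h
      have := congrArg (fun z => (f z).2) h
      simp only [hsw] at this
      cases h2 : (f i).2 <;> simp [h2] at this
    have hblk : ∀ z : G, p z = 1 → ∀ i, (z.1 i = i ∧ z.1 (sw i) = sw i) ∨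
        (z.1 i = sw i ∧ z.1 (sw i) = i) := by
      intro z hz i
      have haz : a z = 1 := congrArg Subtype.val hz
      have h1 : ∀ j, (f (z.1 j)).1 = (f j).1 := by
        intro j
        rw [ha, haz]; rfl
      have h2 : ∀ j, (f j).1 = (f i).1 → j = i ∨ j = sw i := by
        intro j hj
        by_cases h3 : (f j).2 = (f i).2
        · left
          exact f.injective (Prod.ext hj h3)
        · right
          apply f.injective
          rw [hsw]
          refine Prod.ext hj ?_
          cases h4 : (f j).2 <;> cases h5 : (f i).2 <;> simp_all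
      rcases h2 _ (h1 i) with h3 | h3 <;> rcases h2 (z.1 (sw i)) (by rw [h1, hsw]) with h4 | h4
      · exact absurd (z.1.injective (h4.trans h3.symm)) (hsw2 i)
      · exact Or.inl ⟨h3, h4⟩
      · exact Or.inr ⟨h3, h4⟩
      · exact absurd (z.1.injective (h4.trans h3.symm)) (hsw2 i)
    apply Subtype.ext
    ext1 i
    show x.1 (y.1 i) = y.1 (x.1 i)
    rcases hblk x hx i with ⟨h1, h2⟩ | ⟨h1, h2⟩ <;> rcases hblk y hy i with ⟨h3, h4⟩ | ⟨h3, h4⟩
    · rw [h1, h3, h1]
    · rw [h3, h1, h3, h2]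
    · rw [h3, h1, h4]
    · rw [h3, h1, h2, h4]
  have hc : Cls K p := Cls.abelian p s hps inferInstance hcomm
  have he : (1 : G →* T) = (1 : H →* T).comp p := by
    ext g
    exact Subsingleton.elim _ _
  rw [he]
  exact Cls.comp _ _ hH hc

/-- the upper bound passes from `H` to `C₂ ≀ H` -/
theorem c2_UB (K : Type) [Field K] [NumberField K] (hG : C2 H G) (hd : 0 < d)
    (hH : ∀ i j : Fin d, ∃ g ∈ H, g i = j) (hUB : UB K d H) : UB K n G := by
  obtain ⟨f, a, ha, hr, -, -⟩ := c2_hom hG
  exact step_up K hd hH a (fun x => (f x).1) ha hr (c2_card hG) hUB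

end Pool.Agent.H96S.CJ
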