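import Pool.Agent.H96S.CJ.T3

/-!
# Blocks from subgroups
-/

set_option autoImplicit false
set_option linter.unusedSectionVars false
set_option synthInstance.maxHeartbeats 400000

open NumberField IntermediateField Pool.Agent.TH444.ML Pool.Agent.H96S.CI

namespace Pool.Agent.H96S.CJ

/-- a faithful system of `u` blocks of `w ≥ 2 u` points -/
def FB {n : ℕ} (G : Subgroup (Equiv.Perm (Fin n))) : Prop :=
  ∃ (u w : ℕ) (a : G →* Equiv.Perm (Fin u)) (q : Fin n → Fin u), Function.Injective a ∧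
    Function.Surjective q ∧ (∀ (g : G) x, q (g.1 x) = a g (q x)) ∧ n = u * w ∧ 2 * u ≤ w

theorem fb_UB (K : Type) [Field K] [NumberField K] {n : ℕ} (hn : 0 < n)
    {G : Subgroup (Equiv.Perm (Fin n))} (hG : ∀ i j : Fin n, ∃ g ∈ G, g i = j) (h : FB G) :
    UB K n G := by
  obtain ⟨u, w, a, q, ha, hq, heq, hw, huw⟩ := h
  refine base_bound K hn a ha q heq ?_ w hw huw
  intro i j
  obtain ⟨x, rfl⟩ := hq i
  obtain ⟨y, rfl⟩ := hq j
  obtain ⟨g, hg, h1⟩ := hG x y
  exact ⟨⟨g, hg⟩, by rw [← heq]; exact congrArg q h1⟩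

theorem fb_regular {n : ℕ} {G : Subgroup (Equiv.Perm (Fin n))}
    (hG : ∀ i j : Fin n, ∃ g ∈ G, g i = j) (hc : Nat.card G = n) (U : Subgroup G)
    (hU : U.normalCore = ⊥) (hb : 8 * U.index * (U.index + 1) ≤ Nat.card G) : FB G := by
  classical
  have hfin : Finite G := inferInstance
  have hn : 0 < n := by rw [← hc]; exact Nat.card_pos
  let x₀ : Fin n := ⟨0, hn⟩
  have hbij : Function.Bijective (fun g : G => g.1 x₀) := by
    rw [Nat.bijective_iff_surjective_and_card]
    refine ⟨?_, by rw [hc, Nat.card_fin]⟩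
    intro j
    obtain ⟨g, hg, h⟩ := hG x₀ j
    exact ⟨⟨g, hg⟩, h⟩
  have hγ : ∀ x, ∃ g : G, g.1 x₀ = x := fun x => hbij.2 x
  choose γ hγ using hγ
  have hγ2 : ∀ (g : G) x, γ (g.1 x) = g * γ x := by
    intro g x
    apply hbij.1
    show (γ (g.1 x)).1 x₀ = g.1 ((γ x).1 x₀)
    rw [hγ, hγ]
  let ε : (G ⧸ U) ≃ Fin U.index := Finite.equivFinOfCardEq rfl
  let a : G →* Equiv.Perm (Fin U.index) :=
    (ε.permCongrHom.toMonoidHom).comp (MulAction.toPermHom G (G ⧸ U))
  have ha : ∀ (g : G) (c : G ⧸ U), a g (ε c) = ε (g • c) := by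
    intro g c
    show ε (g • (ε.symm (ε c))) = _
    rw [Equiv.symm_apply_apply]
  refine ⟨U.index, Nat.card U, a, fun x => ε (γ x : G ⧸ U), ?_, ?_, ?_, ?_, ?_⟩
  · rw [injective_iff_map_eq_one]
    intro g hg
    have h1 : MulAction.toPermHom G (G ⧸ U) g = 1 := by
      have h2 : ε.permCongrHom (MulAction.toPermHom G (G ⧸ U) g) = 1 := hg
      rwa [MulEquiv.map_eq_one_iff] at h2
    have h3 : g ∈ U.normalCore := by
      rw [Subgroup.normalCore_eq_ker, MonoidHom.mem_ker]
      exact h1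
    rw [hU] at h3
    exact h3
  · intro i
    obtain ⟨g, hg⟩ := QuotientGroup.mk_surjective (ε.symm i)
    refine ⟨g.1 x₀, ?_⟩
    have h1 : γ (g.1 x₀) = g := by
      apply hbij.1
      exact hγ _
    show ε (γ (g.1 x₀) : G ⧸ U) = i
    rw [h1, hg, Equiv.apply_symm_apply]
  · intro g x
    show ε (γ (g.1 x) : G ⧸ U) = a g (ε (γ x : G ⧸ U))
    rw [ha, hγ2]
    rfl
  · exact hc.symm.trans (Subgroup.index_mul_card U).symm
  · have h1 := U.index_mul_card
    have h2 : 0 < U.index := Nat.pos_of_ne_zero Subgroup.index_ne_zero_of_finite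
    have h3 : 8 * U.index * (U.index + 1) ≤ U.index * Nat.card U := by rw [h1]; exact hb
    have h4 : U.index * (8 * (U.index + 1)) ≤ U.index * Nat.card U := by
      calc _ = 8 * U.index * (U.index + 1) := by ring
        _ ≤ _ := h3
    have h5 := Nat.le_of_mul_le_mul_left h4 h2
    omega

theorem core_iso {G W : Type} [Group G] [Group W] (e : G ≃* W) (U : Subgroup W)
    (hU : U.normalCore = ⊥) : (U.comap e.toMonoidHom).normalCore = ⊥ ∧
      (U.comap e.toMonoidHom).index = U.index := by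
  constructor
  · rw [eq_bot_iff]
    intro x hx
    have h1 : e x ∈ U.normalCore := by
      intro b
      have h2 := hx (e.symm b)
      have h3 : e (e.symm b * x * (e.symm b)⁻¹) ∈ U := h2
      rw [map_mul, map_mul, map_inv, MulEquiv.apply_symm_apply] at h3
      exact h3
    rw [hU, Subgroup.mem_bot] at h1
    rw [Subgroup.mem_bot]
    exact (MulEquiv.map_eq_one_iff e).1 h1
  · exact Subgroup.index_comap_of_surjective _ e.surjective

end Pool.Agent.H96S.CJ
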